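import Pool.Agent.Y850.ZN.Indep

set_option autoImplicit false

/-!
# No multiple of the commutator ideal of the nucleus lies in the nucleus; infinite rank

The definitions `FreeAlt` (free alternative algebra), `nucleus` and `ZN` are in
`Pool/Agent/Helper805/Nuc/Free.lean`.
-/

namespace Pool.Agent.Results.MP_b862e0_al.InfiniteRank

open Pool.Agent.Helper805.Nuc.Free Pool.Agent.Y850.ZN

/-- (1) Let `Φ` be any commutative ring and let the set `X` contain `|I|` disjoint sets of nine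
elements. Then there are elements `z i`, `i ∈ I`, of the ideal `ZN` of the free alternative algebra
`Alt[X]` such that a linear combination `∑ c i • z i` lies in the nucleus only if all `6 * c i` are
nilpotent.

(2) In particular, if `X` has at least nine elements, `m • ZN ⊄ N` for every scalar `m` such that
`6 * m` is not nilpotent.

(3) In particular `2 • ZN ⊄ N` whenever `6` is not nilpotent in `Φ`.

(4) If `X` is infinite and `Φ` is reduced with `6` not a zero divisor (a field of characteristic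
not two or three, the integers), then `ZN` contains a family indexed by `X` which is linearly
independent modulo the nucleus. -/
theorem result :
    (∀ (Φ : Type) [CommRing Φ] (X I : Type), Nonempty (I × Fin 9 ↪ X) →
      ∃ z : I → FreeAlt Φ X, (∀ i, z i ∈ ZN Φ (FreeAlt Φ X)) ∧
        ∀ c : I →₀ Φ, (c.sum fun i r => r • z i) ∈ nucleus Φ (FreeAlt Φ X) →
          ∀ i, IsNilpotent (6 * c i)) ∧
    (∀ (Φ : Type) [CommRing Φ] (X : Type), Nonempty (Fin 9 ↪ X) → ∀ m : Φ,
      ¬ IsNilpotent (6 * m) → ∃ z ∈ ZN Φ (FreeAlt Φ X), m • z ∉ nucleus Φ (FreeAlt Φ X)) ∧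
    (∀ (Φ : Type) [CommRing Φ], ¬ IsNilpotent (6 : Φ) → ∀ X : Type, Nonempty (Fin 9 ↪ X) →
      ∃ z ∈ ZN Φ (FreeAlt Φ X), (2 : Φ) • z ∉ nucleus Φ (FreeAlt Φ X)) ∧
    (∀ (Φ : Type) [CommRing Φ], (∀ c : Φ, IsNilpotent (6 * c) → c = 0) →
      ∀ (X : Type) [Infinite X],
      ∃ z : X → FreeAlt Φ X, (∀ x, z x ∈ ZN Φ (FreeAlt Φ X)) ∧
        LinearIndependent Φ (fun x => (nucleus Φ (FreeAlt Φ X)).mkQ (z x))) := by
  have key : ∀ (Φ : Type) [CommRing Φ] (X I : Type), Nonempty (I × Fin 9 ↪ X) →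
      ∃ z : I → FreeAlt Φ X, (∀ i, z i ∈ ZN Φ (FreeAlt Φ X)) ∧
        ∀ c : I →₀ Φ, (c.sum fun i r => r • z i) ∈ nucleus Φ (FreeAlt Φ X) →
          ∀ i, IsNilpotent (6 * c i) := by
    rintro Φ _ X I ⟨ι⟩
    exact ⟨fun i => zz (fun j => (FreeAlt.gen (ι (i, Pool.Agent.Helper805.Mod.Wit.jx j)) :
      FreeAlt Φ X)), fun i => zz_mem FreeAlt.isAlt _, fun c hc i => indep Φ X I ι c hc i⟩
  have key2 : ∀ (Φ : Type) [CommRing Φ] (X : Type), Nonempty (Fin 9 ↪ X) → ∀ m : Φ,
      ¬ IsNilpotent (6 * m) → ∃ z ∈ ZN Φ (FreeAlt Φ X), m • z ∉ nucleus Φ (FreeAlt Φ X) := by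
    rintro Φ _ X ⟨ι⟩ m hm
    obtain ⟨z, hz, h⟩ := key Φ X Unit ⟨(Equiv.punitProd (Fin 9)).toEmbedding.trans ι⟩
    refine ⟨z (), hz (), fun hmem => hm ?_⟩
    have h2 := h (Finsupp.single () m) (by
      have e : ((Finsupp.single () m).sum fun i r => r • z i) = m • z () :=
        Finsupp.sum_single_index (zero_smul _ _)
      rw [e]
      exact hmem) ()
    rwa [Finsupp.single_eq_same] at h2
  refine ⟨key, key2, ?_, ?_⟩
  · intro Φ _ h6 X hX
    refine key2 Φ X hX 2 fun h => h6 ?_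
    obtain ⟨k, hk⟩ := h
    refine ⟨2 * k, ?_⟩
    have e : (6 : Φ) ^ (2 * k) = (6 * 2) ^ k * 3 ^ k := by
      rw [pow_mul, ← mul_pow]
      congr 1
      norm_num
    rw [e, hk, zero_mul]
  · intro Φ _ hΦ X _
    obtain ⟨z, hz, h⟩ := key Φ X X (exists_emb X)
    refine ⟨z, hz, ?_⟩
    rw [linearIndependent_iff]
    intro l hl
    have hmem : (l.sum fun i r => r • z i) ∈ nucleus Φ (FreeAlt Φ X) := by
      rw [← Submodule.ker_mkQ (nucleus Φ (FreeAlt Φ X)), LinearMap.mem_ker, Finsupp.sum, map_sum]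
      rw [Finsupp.linearCombination_apply, Finsupp.sum] at hl
      rw [← hl]
      exact Finset.sum_congr rfl fun i _ => map_smul _ _ _
    ext i
    exact hΦ _ (h l hmem i)

end Pool.Agent.Results.MP_b862e0_al.InfiniteRank
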